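import Pool.Agent.W2helper20.BC.Stm2

/-!
# Project EN, piece CONST
-/

set_option autoImplicit false

namespace Pool.Agent.W2helper78.EN

open Set Metric MeasureTheory
open scoped ContDiff InnerProductSpace ENNReal
open Pool.Agent.Q176.BR Pool.Agent.W2helper20.BC

theorem rho_cont {n : ℕ} {g : Fld n} (hm : IsMetric g) : Continuous (rho g) := by
  unfold rho
  refine Continuous.matrix_det ?_
  refine continuous_matrix (fun i j => ?_)
  have h1 : Continuous (fun x => g x) := hm.smooth.continuous
  exact ((h1.clm_apply continuous_const).clm_apply continuous_const)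

/-- an open set which is null is empty; in the form needed here -/
theorem open_ae {n : ℕ} {U : Set (E n)} (hU : IsOpen U) (h : ∀ᵐ x : E n, x ∉ U) : U = ∅ := by
  have h1 : volume U = 0 := by
    have := ae_iff.1 h
    simpa using this
  exact (hU.measure_eq_zero_iff volume).1 h1

/-- the pointwise algebra -/
theorem lin_zero {n : ℕ} (hn : 2 ≤ n) (a : E n →L[ℝ] E n →L[ℝ] ℝ) (hpos : ∀ v, v ≠ 0 → 0 < a v v)
    (l : E n →L[ℝ] ℝ)
    (h : ∀ᵐ v : E n, a v v ≤ 1 → v ≠ 0 → ∀ w, a v v * l w = a v w * l v) : l = 0 := by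
  have hcv : Continuous (fun v : E n => a v v) := a.continuous.clm_apply continuous_id
  -- the identity for small v
  have h1 : ∀ w v : E n, a v v < 1 → v ≠ 0 → a v v * l w = a v w * l v := by
    intro w
    have hU : IsOpen {v : E n | a v v < 1 ∧ v ≠ 0 ∧ a v v * l w ≠ a v w * l v} := by
      have c1 : Continuous (fun v : E n => a v v * l w) := hcv.mul continuous_const
      have c2 : Continuous (fun v : E n => a v w * l v) :=
        (a.continuous.clm_apply continuous_const).mul l.continuous
      exact (isOpen_lt hcv continuous_const).inter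
        ((isOpen_ne).inter (isOpen_ne_fun c1 c2))
    have hE := open_ae hU (by
      filter_upwards [h] with v hv hv2
      exact hv2.2.2 (hv hv2.1.le hv2.2.1 w))
    intro v h1 h2
    by_contra h3
    have : v ∈ {v : E n | a v v < 1 ∧ v ≠ 0 ∧ a v v * l w ≠ a v w * l v} := ⟨h1, h2, h3⟩
    rw [hE] at this
    exact this
  -- the identity for all v
  have h2 : ∀ w v : E n, v ≠ 0 → a v v * l w = a v w * l v := by
    intro w v hv
    have hav := hpos v hv
    obtain ⟨t, ht0, ht1⟩ : ∃ t : ℝ, 0 < t ∧ t ^ 2 * a v v < 1 := by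
      refine ⟨(1 + a v v)⁻¹, by positivity, ?_⟩
      rw [inv_pow, inv_mul_lt_iff₀ (by positivity)]
      nlinarith
    have h3 := h1 w (t • v) (by
      simp only [map_smul, smul_apply, smul_eq_mul]
      nlinarith) (smul_ne_zero ht0.ne' hv)
    simp only [map_smul, smul_apply, smul_eq_mul] at h3
    have h4 : t ^ 2 * (a v v * l w) = t ^ 2 * (a v w * l v) := by linear_combination h3
    exact mul_left_cancel₀ (by positivity) h4
  ext w
  -- v ≠ 0 with a v w = 0
  have hker : LinearMap.ker ((a.flip w : E n →L[ℝ] ℝ) : E n →ₗ[ℝ] ℝ) ≠ ⊥ := by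
    apply LinearMap.ker_ne_bot_of_finrank_lt
    rw [finrank_euclideanSpace_fin, Module.finrank_self]
    omega
  obtain ⟨v, hv1, hv2⟩ := (Submodule.ne_bot_iff _).1 hker
  have hv3 : a v w = 0 := by
    have := LinearMap.mem_ker.1 hv1
    simpa using this
  have h3 := h2 w v hv2
  rw [hv3, zero_mul] at h3
  have := hpos v hv2
  simpa using (mul_eq_zero.1 h3).resolve_left this.ne'

theorem p_CONST : P_CONST := by
  intro n g Θ hn hg hΘ hΘ0 hae hint
  have hcΘ : Continuous Θ := hΘ.continuous
  have hcd : Continuous (fderiv ℝ Θ) := hΘ.continuous_fderiv (by simp)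
  -- Step 2
  have h2 : ∀ x ∈ ball (0 : E n) 1, Θ x • fderiv ℝ Θ x = 0 := by
    have hU : IsOpen {x : E n | x ∈ ball (0 : E n) 1 ∧ Θ x • fderiv ℝ Θ x ≠ 0} :=
      isOpen_ball.inter (isOpen_ne_fun (hcΘ.smul hcd) continuous_const)
    have hE := open_ae hU (by
      filter_upwards [hae] with x hx hx2
      apply hx2.2
      rcases (hΘ0 x).eq_or_lt with h0 | h0
      · rw [← h0, zero_smul]
      · rw [lin_zero hn (g x) (hg.pos x) (fderiv ℝ Θ x) (by
          filter_upwards [hx hx2.1] with v hv h1 h3
          exact hv h1 h3 h0), smul_zero])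
    intro x hx
    by_contra h3
    have : x ∈ {x : E n | x ∈ ball (0 : E n) 1 ∧ Θ x • fderiv ℝ Θ x ≠ 0} := ⟨hx, h3⟩
    rw [hE] at this
    exact this
  -- Step 3
  have hdiff : Differentiable ℝ Θ := hΘ.differentiable (by simp)
  have h3 : ∀ x ∈ ball (0 : E n) 1, Θ x ^ 2 = Θ 0 ^ 2 := by
    intro x hx
    apply (isOpen_ball (x := (0 : E n)) (ε := 1)).is_const_of_fderiv_eq_zero
      (convex_ball _ _).isPreconnected (f := fun x => Θ x ^ 2)
      (fun y _ => ((hdiff y).pow 2).differentiableWithinAt) ?_ hx (mem_ball_self one_pos)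
    intro y hy
    have hd : HasFDerivAt (fun x => Θ x ^ 2) ((2 : ℝ) • (Θ y • fderiv ℝ Θ y)) y := by
      have := (hdiff y).hasFDerivAt.pow 2
      refine this.congr_fderiv ?_
      ext z
      simp [mul_assoc]
    rw [hd.fderiv, h2 y hy, smul_zero]
    rfl
  have h4 : ∀ x ∈ ball (0 : E n) 1, Θ x = Θ 0 := by
    intro x hx
    exact (pow_left_inj₀ (hΘ0 x) (hΘ0 0) two_ne_zero).1 (h3 x hx)
  -- Step 4
  have hpos : 0 < ∫ x in ball (0 : E n) 1, √(rho g x) := by
    have hc : Continuous (fun x => √(rho g x)) := (rho_cont hg).sqrt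
    have hi : IntegrableOn (fun x => √(rho g x)) (ball (0 : E n) 1) :=
      (hc.continuousOn.integrableOn_compact (isCompact_closedBall (0 : E n) 1)).mono_set
        ball_subset_closedBall
    rw [setIntegral_pos_iff_support_of_nonneg_ae (ae_of_all _ (fun x => Real.sqrt_nonneg _)) hi]
    have hs : Function.support (fun x => √(rho g x)) = univ := by
      ext x
      simp only [Function.mem_support, mem_univ, iff_true]
      exact (Real.sqrt_pos.2 (hg.det_pos x)).ne'
    rw [hs, univ_inter]
    exact measure_ball_pos _ _ one_pos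
  have h5 : √(Θ 0) * ∫ x in ball (0 : E n) 1, √(rho g x) = ∫ x in ball (0 : E n) 1, √(rho g x) := by
    conv_rhs => rw [← hint]
    rw [← integral_const_mul]
    refine setIntegral_congr_fun measurableSet_ball (fun x hx => ?_)
    show √(Θ 0) * √(rho g x) = √(Θ x) * √(rho g x)
    rw [h4 x hx]
  have h6 : √(Θ 0) = 1 := by
    have : √(Θ 0) * ∫ x in ball (0 : E n) 1, √(rho g x) = 1 * ∫ x in ball (0 : E n) 1, √(rho g x) := by
      rw [h5, one_mul]
    exact mul_right_cancel₀ hpos.ne' this
  have h7 : Θ 0 = 1 := Real.sqrt_eq_one.1 h6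
  -- Step 5
  intro x hx
  have hcl : closure (ball (0 : E n) 1) = closedBall 0 1 := closure_ball _ one_ne_zero
  have hsub : closure (ball (0 : E n) 1) ⊆ {x | Θ x = 1} := by
    apply closure_minimal _ (isClosed_eq hcΘ continuous_const)
    intro y hy
    show Θ y = 1
    rw [h4 y hy, h7]
  rw [hcl] at hsub
  exact hsub hx

end Pool.Agent.W2helper78.EN
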